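import Pool.Agent.Helper14.Moser5.Pack

/-!
# The pair check

`checkA l = true` certifies that the cells coded by `l` are pairwise close.
-/

namespace Pool.Agent.Helper14.Moser5

/-- break points of the partition of `[0,1]` (in hundredths) -/
def bpt (k : ℕ) : ℕ := [0, 8, 20, 29, 37, 44, 50, 56, 63, 71, 80, 92, 100].getD k 0

/-- square of the largest distance between points of the intervals `u` and `v` (times `10^4`) -/
def D2 (u v : ℕ) : ℕ := (max (bpt (u + 1) - bpt v) (bpt (v + 1) - bpt u)) ^ 2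

/-- packed table of `D2` -/
noncomputable def TAB : ℕ :=
  0x4000190003490055900790009c400c4000f81013b10190002110027100019000090001b90034900510006e40090000bd100f810144001b900211000349001b900051001210024000384005100073900a2900e10014400190000559003490012100040000e1001b9002d900484006e400a2900f81013b1007900051000240000e100031000a900169002a4004840073900bd100f81009c4006e400384001b9000a9000240009000169002d9005100090000c4000c400090000510002d9001690009000024000a9001b900384006e4009c400f8100bd10073900484002a400169000a900031000e1002400051000790013b100f8100a29006e400484002d9001b9000e100040001210034900559019000144000e1000a29007390051000384002400012100051001b9003490211001b900144000f8100bd100900006e40051000349001b90009000190027100211001900013b100f8100c40009c40079000559003490019000040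

noncomputable def W240 : ℕ :=
  0x1000000000000000000000000000000000000000000000000000000000000

/-- the values `D2 u v`, `v < 12`, packed (20 bits each) -/
noncomputable def rowPack (u : ℕ) : ℕ := Nat.mod (Nat.shiftRight TAB (Nat.mul 240 u)) W240

noncomputable def tbl (K : ℕ) (l : List ℕ) : ℕ :=
  foldK (fun acc x => Nat.add (Nat.shiftLeft acc 240) (rowPack (dg K x))) l 0

noncomputable def cst (c : ℕ) (l : List ℕ) : ℕ :=
  foldK (fun acc _ => Nat.add (Nat.shiftLeft acc 240) c) l 0

noncomputable def sel (t m v : ℕ) : ℕ := Nat.land (Nat.shiftRight t (Nat.mul 20 v)) m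

noncomputable def rowOK (t1 t2 t3 t4 t5 t6 m20 m19 off a : ℕ) : Bool :=
  force (Nat.add (Nat.add (Nat.add (sel t3 m20 (dg 248832 a)) (sel t2 m20 (dg 20736 a)))
    (Nat.add (sel t1 m20 (dg 1728 a)) (sel t4 m20 (dg 144 a)))) off) fun T =>
  cond (Nat.beq (Nat.land (Nat.add T (sel t5 m20 (dg 1 a))) m19) 0)
    (Nat.beq (Nat.land (Nat.add T (sel t6 m20 (dg 12 a))) m19) 0) false

noncomputable def checkA (l : List ℕ) : Bool :=
  force (tbl 248832 l) fun t1 => force (tbl 20736 l) fun t2 => force (tbl 1728 l) fun t3 =>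
  force (tbl 144 l) fun t4 => force (tbl 12 l) fun t5 => force (tbl 1 l) fun t6 =>
  force (cst 1048575 l) fun m20 => force (cst 524288 l) fun m19 => force (cst 514288 l) fun off =>
  allK (rowOK t1 t2 t3 t4 t5 t6 m20 m19 off) l


theorem dg_lt (K x : ℕ) : dg K x < 12 := Nat.mod_lt _ (by norm_num)

theorem rowPack_lt (u : ℕ) : rowPack u < 2 ^ 240 := by
  have h : W240 = 2 ^ 240 := by decide +kernel
  unfold rowPack
  rw [h]
  exact Nat.mod_lt _ (by positivity)

theorem rowPack_spec : ∀ u < 12, ∀ v < 12,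
    (rowPack u >>> (20 * v)) &&& 1048575 = D2 u v := by
  decide +kernel

theorem D2_le : ∀ u < 12, ∀ v < 12, D2 u v ≤ 10000 := by
  decide +kernel

theorem tbl_eq (K : ℕ) (l : List ℕ) : tbl K l = pk (fun x => rowPack (dg K x)) l 0 :=
  foldK_eq _ _ _

theorem cst_eq (c : ℕ) (l : List ℕ) : cst c l = pk (fun _ => c) l 0 :=
  foldK_eq _ _ _

theorem sel_tbl (K : ℕ) (l : List ℕ) (v : ℕ) (hv : v < 12) :
    sel (tbl K l) (cst 1048575 l) v = pk (fun x => D2 (dg K x) v) l 0 := by
  have h0 : sel (tbl K l) (cst 1048575 l) v = (tbl K l >>> (20 * v)) &&& cst 1048575 l := rfl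
  rw [h0, tbl_eq, cst_eq, pk_shift_land (20 * v) (by omega) _ _ _ _ _
    (fun x _ => rowPack_lt _)]
  · rw [Nat.zero_shiftRight, Nat.zero_and]
    exact pk_congr _ _ _ _ fun x _ => rowPack_spec _ (dg_lt K x) _ hv
  · intro x _
    calc (1048575 : ℕ) < 2 ^ 20 := by norm_num
      _ ≤ 2 ^ (240 - 20 * v) := Nat.pow_le_pow_right (by norm_num) (by omega)

theorem mask_check (S : ℕ → ℕ) (l : List ℕ) (hS : ∀ x ∈ l, S x < 2 ^ 20)
    (h : Nat.beq (Nat.land (pk S l 0) (cst 524288 l)) 0 = true) : ∀ x ∈ l, S x < 524288 := by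
  have h1 : pk S l 0 &&& pk (fun _ => 524288) l 0 = 0 := by
    rw [← cst_eq]
    exact Nat.eq_of_beq_eq_true h
  rw [pk_land _ _ _ _ _ (fun x hx => lt_trans (hS x hx) (by norm_num))
    (fun x _ => by norm_num)] at h1
  intro x hx
  exact land_bit19 _ (hS x hx) ((pk_eq_zero _ _ _ h1).2 x hx)

theorem checkA_spec (l : List ℕ) (h : checkA l = true) : ∀ a ∈ l, ∀ b ∈ l,
    D2 (dg 1728 b) (dg 248832 a) + D2 (dg 20736 b) (dg 20736 a) + D2 (dg 248832 b) (dg 1728 a)
      + D2 (dg 144 b) (dg 144 a) + D2 (dg 12 b) (dg 1 a) < 10000 ∧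
    D2 (dg 1728 b) (dg 248832 a) + D2 (dg 20736 b) (dg 20736 a) + D2 (dg 248832 b) (dg 1728 a)
      + D2 (dg 144 b) (dg 144 a) + D2 (dg 1 b) (dg 12 a) < 10000 := by
  intro a ha
  unfold checkA at h
  simp only [force_eq, allK_eq, List.all_eq_true] at h
  have h1 := h a ha
  unfold rowOK at h1
  rw [force_eq, sel_tbl _ _ _ (dg_lt _ _), sel_tbl _ _ _ (dg_lt _ _), sel_tbl _ _ _ (dg_lt _ _),
    sel_tbl _ _ _ (dg_lt _ _), sel_tbl _ _ _ (dg_lt _ _), sel_tbl _ _ _ (dg_lt _ _),
    cst_eq 514288] at h1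
  have hadd : ∀ f g : ℕ → ℕ, Nat.add (pk f l 0) (pk g l 0) = pk (fun x => f x + g x) l 0 :=
    fun f g => pk_add f g l 0 0
  rw [hadd, hadd, hadd, hadd, hadd, hadd] at h1
  have hD : ∀ K K' x y, D2 (dg K x) (dg K' y) ≤ 10000 := fun K K' x y =>
    D2_le _ (dg_lt _ _) _ (dg_lt _ _)
  rw [Bool.cond_eq_ite] at h1
  split_ifs at h1 with h2
  have h3 := mask_check _ l (by
    intro x _
    have e1 := hD 1728 248832 x a
    have e2 := hD 20736 20736 x a
    have e3 := hD 248832 1728 x a
    have e4 := hD 144 144 x a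
    have e5 := hD 12 1 x a
    norm_num
    omega) h2
  have h4 := mask_check _ l (by
    intro x _
    have e1 := hD 1728 248832 x a
    have e2 := hD 20736 20736 x a
    have e3 := hD 248832 1728 x a
    have e4 := hD 144 144 x a
    have e5 := hD 1 12 x a
    norm_num
    omega) h1
  intro b hb
  have h5 := h3 b hb
  have h6 := h4 b hb
  constructor <;> omega

end Pool.Agent.Helper14.Moser5
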