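import Pool.Agent.Helper14.Moser5.Data

/-!
# Kernel checks
-/

namespace Pool.Agent.Helper14.Moser5

/-- order and digits of the codes -/
noncomputable def checkS (l : List ℕ) : ℕ → Bool :=
  List.rec (motive := fun _ => ℕ → Bool) (fun _ => true)
    (fun x _ ih prev => cond (Nat.ble prev (Nat.div x 144)) (cond (Nat.ble (Nat.succ x) 2985984)
      (cond (Nat.ble (dg 248832 x) (dg 20736 x)) (cond (Nat.ble (dg 20736 x) (dg 1728 x))
        (cond (Nat.ble (dg 12 x) (dg 1 x)) (force (Nat.succ (Nat.div x 144)) ih) false)
          false) false) false) false) l

theorem chkA0 : checkA rows0 = true := by decide +kernel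

theorem chkS0 : checkS rows0 0 = true := by decide +kernel

theorem chkA1 : checkA rows1 = true := by decide +kernel

theorem chkS1 : checkS rows1 0 = true := by decide +kernel

theorem chkA2 : checkA rows2 = true := by decide +kernel

theorem chkS2 : checkS rows2 0 = true := by decide +kernel

theorem chkA3 : checkA rows3 = true := by decide +kernel

theorem chkS3 : checkS rows3 0 = true := by decide +kernel

theorem chkA4 : checkA rows4 = true := by decide +kernel

theorem chkS4 : checkS rows4 0 = true := by decide +kernel

theorem chkA5 : checkA rows5 = true := by decide +kernel

theorem chkS5 : checkS rows5 0 = true := by decide +kernel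

theorem chkA6 : checkA rows6 = true := by decide +kernel

theorem chkS6 : checkS rows6 0 = true := by decide +kernel

theorem chkA7 : checkA rows7 = true := by decide +kernel

theorem chkS7 : checkS rows7 0 = true := by decide +kernel

theorem chkA8 : checkA rows8 = true := by decide +kernel

theorem chkS8 : checkS rows8 0 = true := by decide +kernel

theorem chkA9 : checkA rows9 = true := by decide +kernel

theorem chkS9 : checkS rows9 0 = true := by decide +kernel

theorem chkA10 : checkA rows10 = true := by decide +kernel

theorem chkS10 : checkS rows10 0 = true := by decide +kernel

theorem chkA11 : checkA rows11 = true := by decide +kernel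

theorem chkS11 : checkS rows11 0 = true := by decide +kernel

end Pool.Agent.Helper14.Moser5
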