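import Mathlib

/-!
# `f(5) = 34`: the computable part

Lists of natural numbers code unions of cells of the `5`-cube; a code is the number with base `12`
digits `t1, t2, t3, d, lo, hi`.  The functions below are evaluated by Lean's kernel.
-/

namespace Pool.Agent.Helper14.Moser5

/-- strict evaluation of a natural number before it is passed on -/
noncomputable def force {α : Type} (n : ℕ) (k : ℕ → α) : α :=
  Nat.rec (motive := fun _ => α) (k 0) (fun m _ => k (Nat.succ m)) n

theorem force_eq {α : Type} (n : ℕ) (k : ℕ → α) : force n k = k n := by
  cases n <;> rfl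

/-- strict left fold -/
noncomputable def foldK (step : ℕ → ℕ → ℕ) (l : List ℕ) : ℕ → ℕ :=
  List.rec (motive := fun _ => ℕ → ℕ) (fun acc => acc)
    (fun x _ ih acc => force (step acc x) ih) l

theorem foldK_eq (step : ℕ → ℕ → ℕ) (l : List ℕ) (acc : ℕ) :
    foldK step l acc = l.foldl step acc := by
  induction l generalizing acc with
  | nil => rfl
  | cons x l ih =>
    show force (step acc x) (foldK step l) = _
    rw [force_eq, ih]
    rfl

/-- conjunction over a list -/
noncomputable def allK (p : ℕ → Bool) (l : List ℕ) : Bool :=
  List.rec (motive := fun _ => Bool) true (fun x _ ih => cond (p x) ih false) l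

theorem allK_eq (p : ℕ → Bool) (l : List ℕ) : allK p l = l.all p := by
  induction l with
  | nil => rfl
  | cons x l ih =>
    show cond (p x) (allK p l) false = _
    rw [ih, List.all_cons]
    cases p x <;> rfl

/-- base-12 digit -/
noncomputable def dg (K x : ℕ) : ℕ := Nat.mod (Nat.div x K) 12

end Pool.Agent.Helper14.Moser5
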