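import Pool.Agent.Helper14.Moser5.Geom

/-!
# Counting the symmetries of the cube that move a cell into a given set
-/

namespace Pool.Agent.Helper14.Moser5

open Equiv

attribute [local irreducible] dg

/-- the cell `y` lies in the box coded by `x` -/
def R (x : ℕ) (y : Fin 5 → ℕ) : Prop :=
  y 0 = dg 248832 x ∧ y 1 = dg 20736 x ∧ y 2 = dg 1728 x ∧ y 3 = dg 144 x ∧
    dg 12 x ≤ y 4 ∧ y 4 ≤ dg 1 x

noncomputable instance (x : ℕ) (y : Fin 5 → ℕ) : Decidable (R x y) := by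
  unfold R; infer_instance

/-- the six permutations of the first three coordinates -/
def p6 : Fin 6 → Perm (Fin 5) :=
  ![1, swap 0 1, swap 1 2, swap 0 2, swap 0 1 * swap 1 2, swap 1 2 * swap 0 1]

/-- the cell `y` lies in the box coded by `x` up to a permutation of the first three coordinates -/
def O (x : ℕ) (y : Fin 5 → ℕ) : Prop := ∃ j, R x (y ∘ p6 j)

noncomputable instance (x : ℕ) (y : Fin 5 → ℕ) : Decidable (O x y) := by
  unfold O; infer_instance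

/-- indicator of `R` -/
noncomputable def iR (x : ℕ) (y : Fin 5 → ℕ) : ℕ := if R x y then 1 else 0

/-- indicator of `O` -/
noncomputable def iO (x : ℕ) (y : Fin 5 → ℕ) : ℕ := if O x y then 1 else 0

theorem p6_vals : (∀ j, p6 j 3 = 3 ∧ p6 j 4 = 4) ∧
    (p6 0 0 = 0 ∧ p6 0 1 = 1 ∧ p6 0 2 = 2) ∧ (p6 1 0 = 1 ∧ p6 1 1 = 0 ∧ p6 1 2 = 2) ∧
    (p6 2 0 = 0 ∧ p6 2 1 = 2 ∧ p6 2 2 = 1) ∧ (p6 3 0 = 2 ∧ p6 3 1 = 1 ∧ p6 3 2 = 0) ∧
    (p6 4 0 = 1 ∧ p6 4 1 = 2 ∧ p6 4 2 = 0) ∧ (p6 5 0 = 2 ∧ p6 5 1 = 0 ∧ p6 5 2 = 1) := by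
  decide

theorem arr (a b c t1 t2 t3 : ℕ) (h12 : t1 ≤ t2) (h23 : t2 ≤ t3) :
    (if t1 = t3 then 1 else if t1 = t2 then 3 else if t2 = t3 then 3 else 6) *
      ((if a = t1 ∧ b = t2 ∧ c = t3 then 1 else 0) + (if b = t1 ∧ a = t2 ∧ c = t3 then 1 else 0) +
       (if a = t1 ∧ c = t2 ∧ b = t3 then 1 else 0) + (if c = t1 ∧ b = t2 ∧ a = t3 then 1 else 0) +
       (if b = t1 ∧ c = t2 ∧ a = t3 then 1 else 0) + (if c = t1 ∧ a = t2 ∧ b = t3 then 1 else 0)) =
    6 * (if (a = t1 ∧ b = t2 ∧ c = t3) ∨ (b = t1 ∧ a = t2 ∧ c = t3) ∨ (a = t1 ∧ c = t2 ∧ b = t3) ∨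
        (c = t1 ∧ b = t2 ∧ a = t3) ∨ (b = t1 ∧ c = t2 ∧ a = t3) ∨ (c = t1 ∧ a = t2 ∧ b = t3)
      then 1 else 0) := by
  by_cases hO : (a = t1 ∧ b = t2 ∧ c = t3) ∨ (b = t1 ∧ a = t2 ∧ c = t3) ∨
      (a = t1 ∧ c = t2 ∧ b = t3) ∨ (c = t1 ∧ b = t2 ∧ a = t3) ∨ (b = t1 ∧ c = t2 ∧ a = t3) ∨
      (c = t1 ∧ a = t2 ∧ b = t3)
  · rw [if_pos hO]
    rcases hO with ⟨rfl, rfl, rfl⟩ | ⟨rfl, rfl, rfl⟩ | ⟨rfl, rfl, rfl⟩ | ⟨rfl, rfl, rfl⟩ |
      ⟨rfl, rfl, rfl⟩ | ⟨rfl, rfl, rfl⟩ <;> split_ifs <;> omega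
  · rw [if_neg hO]
    push Not at hO
    obtain ⟨h1, h2, h3, h4, h5, h6⟩ := hO
    have n1 : ¬(a = t1 ∧ b = t2 ∧ c = t3) := fun h => h1 h.1 h.2.1 h.2.2
    have n2 : ¬(b = t1 ∧ a = t2 ∧ c = t3) := fun h => h2 h.1 h.2.1 h.2.2
    have n3 : ¬(a = t1 ∧ c = t2 ∧ b = t3) := fun h => h3 h.1 h.2.1 h.2.2
    have n4 : ¬(c = t1 ∧ b = t2 ∧ a = t3) := fun h => h4 h.1 h.2.1 h.2.2
    have n5 : ¬(b = t1 ∧ c = t2 ∧ a = t3) := fun h => h5 h.1 h.2.1 h.2.2
    have n6 : ¬(c = t1 ∧ a = t2 ∧ b = t3) := fun h => h6 h.1 h.2.1 h.2.2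
    rw [if_neg n1, if_neg n2, if_neg n3, if_neg n4, if_neg n5, if_neg n6, Nat.mul_zero]

theorem mult_eq (x : ℕ) : mult x = if dg 248832 x = dg 1728 x then 1 else
    if dg 248832 x = dg 20736 x then 3 else if dg 20736 x = dg 1728 x then 3 else 6 := by
  have hb : ∀ (u v : ℕ) (m n : ℕ), cond (Nat.beq u v) m n = if u = v then m else n := by
    intro u v m n
    by_cases h : u = v
    · subst h; simp
    · rw [if_neg h]
      have : Nat.beq u v = false := by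
        rw [← Bool.not_eq_true]
        exact fun hh => h (Nat.eq_of_beq_eq_true hh)
      rw [this]; rfl
  unfold mult
  rw [hb, hb, hb]

theorem count_arr (x : ℕ) (y : Fin 5 → ℕ) (h12 : dg 248832 x ≤ dg 20736 x)
    (h23 : dg 20736 x ≤ dg 1728 x) :
    mult x * ∑ j, iR x (y ∘ p6 j) = 6 * iO x y := by
  unfold iR iO
  obtain ⟨h34, h0, h1, h2, h3, h4, h5⟩ := p6_vals
  have hR : ∀ j, R x (y ∘ p6 j) ↔ ((y (p6 j 0) = dg 248832 x ∧ y (p6 j 1) = dg 20736 x ∧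
      y (p6 j 2) = dg 1728 x) ∧ (y 3 = dg 144 x ∧ dg 12 x ≤ y 4 ∧ y 4 ≤ dg 1 x)) := by
    intro j
    simp only [R, Function.comp_apply, (h34 j).1, (h34 j).2]
    tauto
  have hO : O x y ↔ ((y 0 = dg 248832 x ∧ y 1 = dg 20736 x ∧ y 2 = dg 1728 x) ∨
      (y 1 = dg 248832 x ∧ y 0 = dg 20736 x ∧ y 2 = dg 1728 x) ∨
      (y 0 = dg 248832 x ∧ y 2 = dg 20736 x ∧ y 1 = dg 1728 x) ∨
      (y 2 = dg 248832 x ∧ y 1 = dg 20736 x ∧ y 0 = dg 1728 x) ∨
      (y 1 = dg 248832 x ∧ y 2 = dg 20736 x ∧ y 0 = dg 1728 x) ∨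
      (y 2 = dg 248832 x ∧ y 0 = dg 20736 x ∧ y 1 = dg 1728 x)) ∧
      (y 3 = dg 144 x ∧ dg 12 x ≤ y 4 ∧ y 4 ≤ dg 1 x) := by
    unfold O
    simp only [hR]
    rw [exists_and_right]
    refine and_congr_left fun _ => ?_
    constructor
    · rintro ⟨j, hj⟩
      fin_cases j
      · left; simpa [h0] using hj
      · right; left; simpa [h1] using hj
      · right; right; left; simpa [h2] using hj
      · right; right; right; left; simpa [h3] using hj
      · right; right; right; right; left; simpa [h4] using hj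
      · right; right; right; right; right; simpa [h5] using hj
    · rintro (h | h | h | h | h | h)
      · exact ⟨0, by simpa [h0] using h⟩
      · exact ⟨1, by simpa [h1] using h⟩
      · exact ⟨2, by simpa [h2] using h⟩
      · exact ⟨3, by simpa [h3] using h⟩
      · exact ⟨4, by simpa [h4] using h⟩
      · exact ⟨5, by simpa [h5] using h⟩
  by_cases hrest : y 3 = dg 144 x ∧ dg 12 x ≤ y 4 ∧ y 4 ≤ dg 1 x
  · have e1 : ∀ j, (if R x (y ∘ p6 j) then 1 else 0) = if (y (p6 j 0) = dg 248832 x ∧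
        y (p6 j 1) = dg 20736 x ∧ y (p6 j 2) = dg 1728 x) then 1 else 0 := by
      intro j
      refine if_congr ?_ rfl rfl
      rw [hR]
      exact and_iff_left hrest
    rw [Finset.sum_congr rfl fun j _ => e1 j, Fin.sum_univ_six, mult_eq, h0.1, h0.2.1, h0.2.2,
      h1.1, h1.2.1, h1.2.2, h2.1, h2.2.1, h2.2.2, h3.1, h3.2.1, h3.2.2, h4.1, h4.2.1, h4.2.2,
      h5.1, h5.2.1, h5.2.2]
    rw [arr _ _ _ _ _ _ h12 h23]
    congr 1
    refine if_congr ?_ rfl rfl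
    rw [hO]
    exact (and_iff_left hrest).symm
  · have e1 : ∀ j, (if R x (y ∘ p6 j) then 1 else 0) = 0 := by
      intro j
      rw [if_neg]
      rw [hR]
      exact fun h => hrest h.2
    rw [Finset.sum_congr rfl fun j _ => e1 j, if_neg]
    · simp
    · rw [hO]
      exact fun h => hrest h.2

/-- number of symmetries moving the cell `c` into the box of `x` -/
noncomputable def NR (x : ℕ) (c : Fin 5 → ℕ) : ℕ :=
  ∑ σ : Perm (Fin 5), ∑ s : Fin 5 → Bool, iR x (fun i => fl (s i) (c (σ i)))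

theorem sum_reindex (F : (Fin 5 → ℕ) → ℕ) (c : Fin 5 → ℕ) (p : Perm (Fin 5)) :
    (∑ σ : Perm (Fin 5), ∑ s : Fin 5 → Bool, F ((fun i => fl (s i) (c (σ i))) ∘ p)) =
      ∑ σ : Perm (Fin 5), ∑ s : Fin 5 → Bool, F (fun i => fl (s i) (c (σ i))) := by
  rw [← Equiv.sum_comp (Equiv.mulRight p)
    (fun σ : Perm (Fin 5) => ∑ s : Fin 5 → Bool, F (fun i => fl (s i) (c (σ i))))]
  refine Finset.sum_congr rfl fun σ _ => ?_
  rw [← Equiv.sum_comp (Equiv.arrowCongr p.symm (Equiv.refl Bool))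
    (fun s : Fin 5 → Bool => F (fun i => fl (s i) (c ((Equiv.mulRight p) σ i))))]
  refine Finset.sum_congr rfl fun s _ => ?_
  congr 1

theorem abs_sum {α β : Type*} [Fintype α] [Fintype β] (m : ℕ) (f : α → β → Fin 6 → ℕ)
    (g : α → β → ℕ) (h : ∀ a b, m * ∑ j, f a b j = 6 * g a b) (N : ℕ)
    (hN : ∀ j, (∑ a, ∑ b, f a b j) = N) : (∑ a, ∑ b, g a b) = m * N := by
  have h1 : 6 * (∑ a, ∑ b, g a b) = 6 * (m * N) := by
    calc 6 * (∑ a, ∑ b, g a b) = ∑ a, ∑ b, m * ∑ j, f a b j := by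
          rw [Finset.mul_sum]
          refine Finset.sum_congr rfl fun a _ => ?_
          rw [Finset.mul_sum]
          exact Finset.sum_congr rfl fun b _ => (h a b).symm
      _ = m * ∑ a, ∑ b, ∑ j, f a b j := by
          rw [Finset.mul_sum]
          refine Finset.sum_congr rfl fun a _ => ?_
          rw [Finset.mul_sum]
      _ = m * ∑ j : Fin 6, ∑ a, ∑ b, f a b j := by
          congr 1
          rw [Finset.sum_comm]
          have e : ∀ a, (∑ b, ∑ j, f a b j) = ∑ j, ∑ b, f a b j := fun a => Finset.sum_comm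
          rw [Finset.sum_comm, Finset.sum_congr rfl fun a _ => e a, Finset.sum_comm]
      _ = 6 * (m * N) := by
          rw [Finset.sum_congr rfl fun j _ => hN j, Finset.sum_const, Finset.card_univ,
            Fintype.card_fin, smul_eq_mul]
          ring
  omega

theorem NO_eq (x : ℕ) (c : Fin 5 → ℕ) (h12 : dg 248832 x ≤ dg 20736 x)
    (h23 : dg 20736 x ≤ dg 1728 x) :
    (∑ σ : Perm (Fin 5), ∑ s : Fin 5 → Bool, iO x (fun i => fl (s i) (c (σ i)))) =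
      mult x * NR x c := by
  have hN : ∀ j : Fin 6, (∑ σ : Perm (Fin 5), ∑ s : Fin 5 → Bool,
      iR x ((fun i => fl (s i) (c (σ i))) ∘ p6 j)) = NR x c := by
    intro j
    rw [NR]
    exact sum_reindex (iR x) c (p6 j)
  have h := abs_sum (mult x)
    (fun (σ : Perm (Fin 5)) (s : Fin 5 → Bool) j => iR x ((fun i => fl (s i) (c (σ i))) ∘ p6 j))
    (fun (σ : Perm (Fin 5)) (s : Fin 5 → Bool) => iO x (fun i => fl (s i) (c (σ i))))
    (fun _ _ => count_arr x _ h12 h23) (NR x c) hN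
  exact h

/-- contribution of the box `x` to the class vector `k` -/
noncomputable def A (x : ℕ) (k : Fin 5 → ℕ) : ℕ :=
  (if cl (dg 248832 x) = k 0 then 1 else 0) * (if cl (dg 20736 x) = k 1 then 1 else 0) *
  (if cl (dg 1728 x) = k 2 then 1 else 0) * (if cl (dg 144 x) = k 3 then 1 else 0) *
    n5 (dg 12 x) (dg 1 x) (k 4)

theorem sum_flip_eq (t u : ℕ) (ht : t < 12) (hu : u < 12) :
    (∑ b : Bool, if fl b u = t then 1 else 0) = if cl t = cl u then 1 else 0 := by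
  rw [Fintype.sum_bool]
  unfold fl cl
  simp only [if_true, Bool.false_eq_true, if_false]
  split_ifs <;> omega

theorem sum_flip_range (lo hi u : ℕ) (hu : u < 12) :
    (∑ b : Bool, if lo ≤ fl b u ∧ fl b u ≤ hi then 1 else 0) = n5 lo hi (cl u) := by
  rw [Fintype.sum_bool]
  unfold fl cl n5
  simp only [if_true, Bool.false_eq_true, if_false]
  rcases Nat.lt_or_ge u 6 with h | h
  · have e : min u (11 - u) = u := by omega
    rw [e]
    exact Nat.add_comm _ _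
  · have e : min u (11 - u) = 11 - u := by omega
    have e2 : 11 - (11 - u) = u := by omega
    rw [e, e2]

theorem ind_and (p q : Prop) [Decidable p] [Decidable q] :
    (if p ∧ q then 1 else 0) = (if p then 1 else 0) * (if q then 1 else 0) := by
  by_cases hp : p <;> by_cases hq : q <;> simp [hp, hq]

theorem NR_eq (x : ℕ) (c : Fin 5 → ℕ) (hc : ∀ i, c i < 12) :
    NR x c = ∑ σ : Perm (Fin 5), A x (fun i => cl (c (σ i))) := by
  unfold NR iR
  refine Finset.sum_congr rfl fun σ _ => ?_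
  set φ : Fin 5 → ℕ → ℕ := ![fun u => if u = dg 248832 x then 1 else 0,
    fun u => if u = dg 20736 x then 1 else 0, fun u => if u = dg 1728 x then 1 else 0,
    fun u => if u = dg 144 x then 1 else 0,
    fun u => if dg 12 x ≤ u ∧ u ≤ dg 1 x then 1 else 0] with hφ
  have h1 : ∀ y : Fin 5 → ℕ, (if R x y then 1 else 0) = ∏ i, φ i (y i) := by
    intro y
    rw [Fin.prod_univ_five]
    show _ = (if y 0 = dg 248832 x then 1 else 0) * (if y 1 = dg 20736 x then 1 else 0) *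
      (if y 2 = dg 1728 x then 1 else 0) * (if y 3 = dg 144 x then 1 else 0) *
      (if dg 12 x ≤ y 4 ∧ y 4 ≤ dg 1 x then 1 else 0)
    rw [← ind_and, ← ind_and, ← ind_and, ← ind_and]
    refine if_congr ?_ rfl rfl
    unfold R
    tauto
  have h2 : (∑ s : Fin 5 → Bool, if R x (fun i => fl (s i) (c (σ i))) then 1 else 0) =
      ∏ i, ∑ b : Bool, φ i (fl b (c (σ i))) := by
    rw [Finset.prod_univ_sum, Fintype.piFinset_univ]
    exact Finset.sum_congr rfl fun s _ => h1 _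
  rw [h2, Fin.prod_univ_five]
  have e0 := sum_flip_eq (dg 248832 x) (c (σ 0)) (dg_lt _ _) (hc _)
  have e1 := sum_flip_eq (dg 20736 x) (c (σ 1)) (dg_lt _ _) (hc _)
  have e2 := sum_flip_eq (dg 1728 x) (c (σ 2)) (dg_lt _ _) (hc _)
  have e3 := sum_flip_eq (dg 144 x) (c (σ 3)) (dg_lt _ _) (hc _)
  have e4 := sum_flip_range (dg 12 x) (dg 1 x) (c (σ 4)) (hc _)
  unfold A
  rw [← e0, ← e1, ← e2, ← e3, ← e4]
  rfl

end Pool.Agent.Helper14.Moser5
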