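import Pool.Agent.Helper14.Moser5.Data

/-!
# Kernel check of the covering property
-/

namespace Pool.Agent.Helper14.Moser5

noncomputable def look (H i : ℕ) : ℕ := Nat.mod (Nat.shiftRight H (Nat.mul 32 i)) 4294967296

noncomputable def P1 (H i a : ℕ) : ℕ := look H (Nat.add (Nat.mul i 6) a)

noncomputable def P2 (H i a b : ℕ) : ℕ :=
  Nat.add (P1 H (Nat.add (Nat.mul i 6) a) b) (P1 H (Nat.add (Nat.mul i 6) b) a)

noncomputable def P3 (H i a b c : ℕ) : ℕ :=
  Nat.add (P2 H (Nat.add (Nat.mul i 6) a) b c) (Nat.add (P2 H (Nat.add (Nat.mul i 6) b) a c)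
    (P2 H (Nat.add (Nat.mul i 6) c) b a))

noncomputable def P4 (H i a b c d : ℕ) : ℕ :=
  Nat.add (Nat.add (P3 H (Nat.add (Nat.mul i 6) a) b c d) (P3 H (Nat.add (Nat.mul i 6) b) a c d))
    (Nat.add (P3 H (Nat.add (Nat.mul i 6) c) b a d) (P3 H (Nat.add (Nat.mul i 6) d) b c a))

noncomputable def P5 (H a b c d e : ℕ) : ℕ :=
  Nat.add (Nat.add (P4 H a b c d e) (P4 H b a c d e))
    (Nat.add (P4 H c b a d e) (Nat.add (P4 H d b c a e) (P4 H e b c d a)))

def six : List ℕ := [0, 1, 2, 3, 4, 5]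

noncomputable def chk5 (H : ℕ) : Bool :=
  allK (fun a => allK (fun b => cond (Nat.ble a b) (allK (fun c => cond (Nat.ble b c)
    (allK (fun d => cond (Nat.ble c d) (allK (fun e => cond (Nat.ble d e)
      (Nat.ble 3840000 (P5 H a b c d e)) true) six) true) six) true) six) true) six) six

noncomputable def HH : ℕ :=
  2126 * histK rows0 0
    + 2466 * histK rows1 0
    + 2712 * histK rows2 0
    + 4251 * histK rows3 0
    + 3405 * histK rows4 0
    + 1060 * histK rows5 0
    + 2700 * histK rows6 0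
    + 5840 * histK rows7 0
    + 1177 * histK rows8 0
    + 2519 * histK rows9 0
    + 4747 * histK rows10 0
    + 1969 * histK rows11 0

theorem chk5_HH : force HH chk5 = true := by decide +kernel

end Pool.Agent.Helper14.Moser5
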