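import Pool.Agent.Helper14.Moser5.Hist

/-!
# Cells and distances
-/

namespace Pool.Agent.Helper14.Moser5

theorem bpt_mono : ∀ j ≤ 12, ∀ i ≤ j, bpt i ≤ bpt j := by decide +kernel

theorem bpt_flip : ∀ c < 12, bpt (11 - c) + bpt (c + 1) = 100 ∧ bpt (11 - c + 1) + bpt c = 100 := by
  decide +kernel

theorem D2_comm (u v : ℕ) : D2 u v = D2 v u := by
  unfold D2
  rw [max_comm]

/-- the Monge property of the distances of intervals -/
theorem monge : ∀ p' < 12, ∀ p ≤ p', ∀ q' < 12, ∀ q ≤ q',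
    D2 p q + D2 p' q' ≤ D2 p q' + D2 p' q := by
  decide +kernel

theorem D2_range (e lo hi e' lo' hi' : ℕ) (h1 : lo ≤ e) (h2 : e ≤ hi) (h3 : hi < 12)
    (h1' : lo' ≤ e') (h2' : e' ≤ hi') (h3' : hi' < 12) (B : ℕ)
    (ha : B + D2 lo' hi < 10000) (hb : B + D2 hi' lo < 10000) : B + D2 e e' < 10000 := by
  have m1 := bpt_mono (hi + 1) (by omega) (e + 1) (by omega)
  have m2 := bpt_mono e' (by omega) lo' (by omega)
  have m3 := bpt_mono (hi' + 1) (by omega) (e' + 1) (by omega)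
  have m4 := bpt_mono e (by omega) lo (by omega)
  unfold D2 at *
  rcases le_total (bpt (e' + 1) - bpt e) (bpt (e + 1) - bpt e') with h | h
  · rw [max_eq_left h]
    have : (bpt (e + 1) - bpt e') ^ 2 ≤ (max (bpt (lo' + 1) - bpt hi) (bpt (hi + 1) - bpt lo')) ^ 2 :=
      Nat.pow_le_pow_left (le_trans (by omega) (le_max_right _ _)) 2
    omega
  · rw [max_eq_right h]
    have : (bpt (e' + 1) - bpt e) ^ 2 ≤ (max (bpt (hi' + 1) - bpt lo) (bpt (lo + 1) - bpt hi')) ^ 2 :=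
      Nat.pow_le_pow_left (le_trans (by omega) (le_max_left _ _)) 2
    omega

/-- rearrangement: the sum of the distances is largest for opposite orders -/
theorem rearr (t1 t2 t3 s1 s2 s3 : ℕ) (h12 : t1 ≤ t2) (h23 : t2 ≤ t3) (h3 : t3 < 12)
    (k12 : s1 ≤ s2) (k23 : s2 ≤ s3) (k3 : s3 < 12) :
    D2 t1 s1 + D2 t2 s2 + D2 t3 s3 ≤ D2 t1 s3 + D2 t2 s2 + D2 t3 s1 ∧
    D2 t1 s1 + D2 t2 s3 + D2 t3 s2 ≤ D2 t1 s3 + D2 t2 s2 + D2 t3 s1 ∧
    D2 t1 s2 + D2 t2 s1 + D2 t3 s3 ≤ D2 t1 s3 + D2 t2 s2 + D2 t3 s1 ∧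
    D2 t1 s2 + D2 t2 s3 + D2 t3 s1 ≤ D2 t1 s3 + D2 t2 s2 + D2 t3 s1 ∧
    D2 t1 s3 + D2 t2 s1 + D2 t3 s2 ≤ D2 t1 s3 + D2 t2 s2 + D2 t3 s1 := by
  have a1 := monge t2 (by omega) t1 h12 s2 (by omega) s1 k12
  have a2 := monge t2 (by omega) t1 h12 s3 (by omega) s1 (by omega)
  have a3 := monge t2 (by omega) t1 h12 s3 (by omega) s2 k23
  have b1 := monge t3 (by omega) t1 (by omega) s2 (by omega) s1 k12
  have b2 := monge t3 (by omega) t1 (by omega) s3 (by omega) s1 (by omega)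
  have b3 := monge t3 (by omega) t1 (by omega) s3 (by omega) s2 k23
  have c1 := monge t3 (by omega) t2 h23 s2 (by omega) s1 k12
  have c2 := monge t3 (by omega) t2 h23 s3 (by omega) s1 (by omega)
  have c3 := monge t3 (by omega) t2 h23 s3 (by omega) s2 k23
  refine ⟨?_, ?_, ?_, ?_, ?_⟩ <;> omega

/-- a real number in `[0,1]` lies in one of the twelve intervals -/
theorem exists_cell (t : ℝ) (h0 : 0 ≤ t) (h1 : t ≤ 1) :
    ∃ c : ℕ, c < 12 ∧ (bpt c : ℝ) ≤ 100 * t ∧ 100 * t ≤ bpt (c + 1) := by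
  have key : ∀ n : ℕ, n ≤ 12 → 100 * t ≤ bpt n → 0 < n →
      ∃ c : ℕ, c < n ∧ (bpt c : ℝ) ≤ 100 * t ∧ 100 * t ≤ bpt (c + 1) := by
    intro n
    induction n with
    | zero => intro _ _ h; omega
    | succ n ih =>
      intro hn ht _
      rcases le_total (bpt n : ℝ) (100 * t) with h | h
      · exact ⟨n, by omega, h, ht⟩
      · rcases Nat.eq_zero_or_pos n with rfl | hp
        · refine ⟨0, by omega, ?_, ht⟩
          have : bpt 0 = 0 := rfl
          rw [this]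
          push_cast
          linarith
        · obtain ⟨c, hc, h2, h3⟩ := ih (by omega) h hp
          exact ⟨c, by omega, h2, h3⟩
  have e : bpt 12 = 100 := rfl
  exact key 12 le_rfl (by rw [e]; push_cast; linarith) (by norm_num)

theorem cell_dist (t t' : ℝ) (c c' : ℕ) (h1 : (bpt c : ℝ) ≤ 100 * t) (h2 : 100 * t ≤ bpt (c + 1))
    (h1' : (bpt c' : ℝ) ≤ 100 * t') (h2' : 100 * t' ≤ bpt (c' + 1)) :
    10000 * (t - t') ^ 2 ≤ (D2 c c' : ℝ) := by
  have e1 : (bpt (c + 1) : ℝ) - bpt c' ≤ ((bpt (c + 1) - bpt c' : ℕ) : ℝ) := by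
    have : bpt (c + 1) ≤ (bpt (c + 1) - bpt c') + bpt c' := by omega
    have h : (bpt (c + 1) : ℝ) ≤ ((bpt (c + 1) - bpt c' : ℕ) : ℝ) + bpt c' := by exact_mod_cast this
    linarith
  have e2 : (bpt (c' + 1) : ℝ) - bpt c ≤ ((bpt (c' + 1) - bpt c : ℕ) : ℝ) := by
    have : bpt (c' + 1) ≤ (bpt (c' + 1) - bpt c) + bpt c := by omega
    have h : (bpt (c' + 1) : ℝ) ≤ ((bpt (c' + 1) - bpt c : ℕ) : ℝ) + bpt c := by exact_mod_cast this
    linarith
  have h3 : |100 * t - 100 * t'| ≤ ((max (bpt (c + 1) - bpt c') (bpt (c' + 1) - bpt c) : ℕ) : ℝ) := by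
    rw [Nat.cast_max, abs_le]
    constructor
    · have := le_max_right ((bpt (c + 1) - bpt c' : ℕ) : ℝ) ((bpt (c' + 1) - bpt c : ℕ) : ℝ)
      linarith
    · have := le_max_left ((bpt (c + 1) - bpt c' : ℕ) : ℝ) ((bpt (c' + 1) - bpt c : ℕ) : ℝ)
      linarith
  have h4 : (100 * t - 100 * t') ^ 2 ≤
      ((max (bpt (c + 1) - bpt c') (bpt (c' + 1) - bpt c) : ℕ) : ℝ) ^ 2 := by
    rw [← sq_abs]
    exact pow_le_pow_left₀ (abs_nonneg _) h3 2
  unfold D2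
  push_cast at h4 ⊢
  nlinarith [h4]

/-- flipping an interval -/
def fl (b : Bool) (u : ℕ) : ℕ := if b then 11 - u else u

/-- flipping a real number -/
noncomputable def flR (b : Bool) (t : ℝ) : ℝ := if b then 1 - t else t

theorem fl_lt (b : Bool) (u : ℕ) (hu : u < 12) : fl b u < 12 := by
  unfold fl; split_ifs <;> omega

theorem cell_flip (b : Bool) (t : ℝ) (c : ℕ) (hc : c < 12) (h1 : (bpt c : ℝ) ≤ 100 * t)
    (h2 : 100 * t ≤ bpt (c + 1)) :
    (bpt (fl b c) : ℝ) ≤ 100 * flR b t ∧ 100 * flR b t ≤ bpt (fl b c + 1) := by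
  cases b
  · exact ⟨h1, h2⟩
  · obtain ⟨e1, e2⟩ := bpt_flip c hc
    have f1 : (bpt (11 - c) : ℝ) + bpt (c + 1) = 100 := by exact_mod_cast e1
    have f2 : (bpt (11 - c + 1) : ℝ) + bpt c = 100 := by exact_mod_cast e2
    constructor
    · show (bpt (11 - c) : ℝ) ≤ 100 * (1 - t)
      linarith
    · show 100 * (1 - t) ≤ bpt (11 - c + 1)
      linarith

theorem flR_sub (b : Bool) (t t' : ℝ) : (flR b t - flR b t') ^ 2 = (t - t') ^ 2 := by
  cases b
  · rfl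
  · show (1 - t - (1 - t')) ^ 2 = _
    ring

end Pool.Agent.Helper14.Moser5
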