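import Pool.Agent.Helper14.Moser5.CheckA

/-!
# The histogram of the cells

`histK l 0` packs, in base `2^32`, the number of cells of each class vector that are coded by `l`.
-/

namespace Pool.Agent.Helper14.Moser5

/-- class of an interval: intervals `u` and `11 - u` are mirror images -/
def cl (u : ℕ) : ℕ := min u (11 - u)

noncomputable def CLT : ℕ := 0x5396c688

noncomputable def PST : ℕ :=
  0x20000000200000002000000020000000200000002000000020000000200000002000000020000000200000001000000020000000200000002000000020000000100000001000000020000000200000002000000010000000100000001000000020000000200000001000000010000000100000001000000020000000100000001000000010000000100000001000000010000000100000001000000010000000100000001000000000000000100000001000000010000000100000001000000000000000000000001000000010000000100000001000000000000000000000000000000010000000100000001000000000000000000000000000000000000000100000001000000000000000000000000000000000000000000000001000000000000000000000000000000000000000000000000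

noncomputable def W192 : ℕ := 0x1000000000000000000000000000000000000000000000000

noncomputable def cls (K x : ℕ) : ℕ := Nat.mod (Nat.shiftRight CLT (Nat.mul 3 (dg K x))) 8

noncomputable def idx4 (x : ℕ) : ℕ :=
  Nat.add (Nat.mul (Nat.add (Nat.mul (Nat.add (Nat.mul (cls 248832 x) 6) (cls 20736 x)) 6)
    (cls 1728 x)) 6) (cls 144 x)

/-- number of arrangements of the triple `t1, t2, t3` -/
noncomputable def mult (x : ℕ) : ℕ :=
  cond (Nat.beq (dg 248832 x) (dg 1728 x)) 1 (cond (Nat.beq (dg 248832 x) (dg 20736 x)) 3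
    (cond (Nat.beq (dg 20736 x) (dg 1728 x)) 3 6))

noncomputable def ps (u : ℕ) : ℕ := Nat.mod (Nat.shiftRight PST (Nat.mul 192 u)) W192

noncomputable def rp (x : ℕ) : ℕ := Nat.sub (ps (Nat.succ (dg 1 x))) (ps (dg 12 x))

noncomputable def histK (l : List ℕ) : ℕ → ℕ :=
  foldK (fun acc x => Nat.add acc
    (Nat.shiftLeft (Nat.mul (mult x) (rp x)) (Nat.mul 192 (idx4 x)))) l


/-- number of intervals of class `k` in `[lo, hi]` -/
def n5 (lo hi k : ℕ) : ℕ :=
  (if lo ≤ k ∧ k ≤ hi then 1 else 0) + (if lo ≤ 11 - k ∧ 11 - k ≤ hi then 1 else 0)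

theorem cls_eq (K x : ℕ) : cls K x = cl (dg K x) := by
  have h : ∀ u < 12, Nat.mod (Nat.shiftRight CLT (Nat.mul 3 u)) 8 = cl u := by decide +kernel
  exact h _ (dg_lt K x)

theorem cl_lt (u : ℕ) (hu : u < 12) : cl u < 6 := by
  unfold cl; omega

theorem idx4_eq (x : ℕ) : idx4 x = ((cl (dg 248832 x) * 6 + cl (dg 20736 x)) * 6
    + cl (dg 1728 x)) * 6 + cl (dg 144 x) := by
  unfold idx4
  rw [cls_eq, cls_eq, cls_eq, cls_eq]
  rfl

theorem rp_eq (x : ℕ) (h : dg 12 x ≤ dg 1 x) :
    rp x = ∑ k ∈ Finset.range 6, n5 (dg 12 x) (dg 1 x) k * 2 ^ (32 * k) := by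
  have h1 : ∀ hi < 12, ∀ lo < 12, lo ≤ hi → Nat.sub (ps (Nat.succ hi)) (ps lo) =
      ∑ k ∈ Finset.range 6, n5 lo hi k * 2 ^ (32 * k) := by decide +kernel
  exact h1 _ (dg_lt 1 x) _ (dg_lt 12 x) h

theorem histK_eq (l : List ℕ) (hn : l.Nodup) :
    histK l 0 = ∑ x ∈ l.toFinset, mult x * rp x * 2 ^ (192 * idx4 x) := by
  have h : ∀ (l : List ℕ) (acc : ℕ), histK l acc =
      acc + (l.map fun x => mult x * rp x * 2 ^ (192 * idx4 x)).sum := by
    intro l
    induction l with
    | nil => intro acc; simp [histK, foldK_eq]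
    | cons x l ih =>
      intro acc
      have e : histK (x :: l) acc = histK l (acc + ((mult x * rp x) <<< (192 * idx4 x))) := by
        simp only [histK, foldK_eq, List.foldl_cons]
        rfl
      rw [e, ih, Nat.shiftLeft_eq, List.map_cons, List.sum_cons, Nat.add_assoc]
  rw [h, Nat.zero_add, ← List.sum_toFinset _ hn]

/-- reading a digit of a sum of powers of `2^32` -/
theorem digit {ι : Type*} (S : Finset ι) (c e : ι → ℕ) (hc : ∑ i ∈ S, c i < 2 ^ 32) (j : ℕ) :
    (∑ i ∈ S, c i * 2 ^ (32 * e i)) / 2 ^ (32 * j) % 2 ^ 32 =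
      ∑ i ∈ S, if e i = j then c i else 0 := by
  classical
  -- split into lower, equal and upper part
  have hsplit : ∑ i ∈ S, c i * 2 ^ (32 * e i) =
      (∑ i ∈ S, if e i < j then c i * 2 ^ (32 * e i) else 0) +
      ((∑ i ∈ S, if e i = j then c i else 0) +
        (∑ i ∈ S, if j < e i then c i * 2 ^ (32 * (e i - j - 1)) else 0) * 2 ^ 32) *
          2 ^ (32 * j) := by
    rw [Nat.add_mul, Finset.sum_mul, Finset.sum_mul, Finset.sum_mul, ← Finset.sum_add_distrib,
      ← Finset.sum_add_distrib]
    refine Finset.sum_congr rfl fun i _ => ?_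
    rcases lt_trichotomy (e i) j with h | h | h
    · rw [if_pos h, if_neg (by omega), if_neg (by omega)]
      simp
    · rw [if_neg (by omega), if_pos h, if_neg (by omega), h]
      simp
    · rw [if_neg (by omega), if_neg (by omega), if_pos h, Nat.zero_mul, Nat.zero_add, Nat.zero_add,
        Nat.mul_assoc, Nat.mul_assoc, ← Nat.pow_add, ← Nat.pow_add]
      congr 2
      omega
  have hlow : (∑ i ∈ S, if e i < j then c i * 2 ^ (32 * e i) else 0) < 2 ^ (32 * j) := by
    rcases Nat.eq_zero_or_pos j with rfl | hj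
    · simp
    · have h1 : (∑ i ∈ S, if e i < j then c i * 2 ^ (32 * e i) else 0) ≤
          (∑ i ∈ S, c i) * 2 ^ (32 * (j - 1)) := by
        rw [Finset.sum_mul]
        refine Finset.sum_le_sum fun i _ => ?_
        split_ifs with h
        · exact Nat.mul_le_mul_left _ (Nat.pow_le_pow_right (by norm_num) (by omega))
        · exact Nat.zero_le _
      calc _ ≤ (∑ i ∈ S, c i) * 2 ^ (32 * (j - 1)) := h1
        _ < 2 ^ 32 * 2 ^ (32 * (j - 1)) := Nat.mul_lt_mul_of_pos_right hc (by positivity)
        _ = 2 ^ (32 * j) := by rw [← Nat.pow_add]; congr 1; omega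
  have hmid : (∑ i ∈ S, if e i = j then c i else 0) < 2 ^ 32 := by
    refine lt_of_le_of_lt (Finset.sum_le_sum fun i _ => ?_) hc
    split_ifs
    · exact le_rfl
    · exact Nat.zero_le _
  rw [hsplit, Nat.add_mul_div_right _ _ (by positivity), Nat.div_eq_of_lt hlow, Nat.zero_add,
    Nat.add_mul_mod_self_right, Nat.mod_eq_of_lt hmid]

end Pool.Agent.Helper14.Moser5
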