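import Pool.Agent.Helper14.Moser5.Perm
import Pool.Agent.Helper14.Moser5.Chk

/-!
# `f(5) = 34`: assembly
-/

namespace Pool.Agent.Helper14.Moser5

open Equiv

section
attribute [local irreducible] dg

theorem checkS_spec (l : List ℕ) (p : ℕ) (h : checkS l p = true) :
    (∀ x ∈ l, p ≤ x / 144 ∧ x < 2985984 ∧ dg 248832 x ≤ dg 20736 x ∧ dg 20736 x ≤ dg 1728 x ∧
      dg 12 x ≤ dg 1 x) ∧ l.Pairwise (fun x y => x / 144 < y / 144) := by
  induction l generalizing p with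
  | nil => exact ⟨by simp, List.Pairwise.nil⟩
  | cons x l ih =>
    have h1 : (cond (Nat.ble p (x / 144)) (cond (Nat.ble (Nat.succ x) 2985984)
      (cond (Nat.ble (dg 248832 x) (dg 20736 x)) (cond (Nat.ble (dg 20736 x) (dg 1728 x))
        (cond (Nat.ble (dg 12 x) (dg 1 x)) (force (Nat.succ (x / 144)) (checkS l)) false)
          false) false) false) false) = true := h
    rw [force_eq] at h1
    simp only [Bool.cond_eq_ite, Bool.if_false_right, Bool.and_eq_true, decide_eq_true_eq,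
      Nat.ble_eq] at h1
    obtain ⟨a1, a2, a3, a4, a5, a6⟩ := h1
    obtain ⟨b1, b2⟩ := ih _ a6
    refine ⟨?_, ?_⟩
    · intro y hy
      rcases List.mem_cons.1 hy with rfl | hy
      · exact ⟨a1, a2, a3, a4, a5⟩
      · obtain ⟨c1, c2⟩ := b1 y hy
        exact ⟨by omega, c2⟩
    · refine List.Pairwise.cons (fun y hy => ?_) b2
      have := (b1 y hy).1
      omega

theorem pairwise_inj (l : List ℕ) (h : l.Pairwise (fun x y => x / 144 < y / 144)) :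
    ∀ x ∈ l, ∀ y ∈ l, x / 144 = y / 144 → x = y := by
  induction l with
  | nil => simp
  | cons a l ih =>
    rw [List.pairwise_cons] at h
    intro x hx y hy hxy
    rcases List.mem_cons.1 hx with e1 | e1 <;> rcases List.mem_cons.1 hy with e2 | e2
    · rw [e1, e2]
    · have := h.1 y e2; rw [e1] at hxy; omega
    · have := h.1 x e1; rw [e2] at hxy; omega
    · exact ih h.2 x e1 y e2 hxy

theorem checkA_rows : ∀ q, checkA (rows q) = true := by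
  intro q
  fin_cases q
  exacts [chkA0, chkA1, chkA2, chkA3, chkA4, chkA5, chkA6, chkA7, chkA8, chkA9, chkA10, chkA11]

theorem checkS_rows : ∀ q, checkS (rows q) 0 = true := by
  intro q
  fin_cases q
  exacts [chkS0, chkS1, chkS2, chkS3, chkS4, chkS5, chkS6, chkS7, chkS8, chkS9, chkS10, chkS11]

/-- the boxes of the set number `q` -/
def SF (q : Fin 12) : Finset ℕ := (rows q).toFinset

theorem mem_SF (q : Fin 12) (x : ℕ) : x ∈ SF q ↔ x ∈ rows q := List.mem_toFinset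

theorem rows_nodup (q : Fin 12) : (rows q).Nodup := by
  refine List.Pairwise.imp ?_ (checkS_spec _ _ (checkS_rows q)).2
  intro a b h hab
  subst hab
  omega

theorem O_iff (x : ℕ) (y : Fin 5 → ℕ) (h : O x y) :
    ((y 0 = dg 248832 x ∧ y 1 = dg 20736 x ∧ y 2 = dg 1728 x) ∨
      (y 1 = dg 248832 x ∧ y 0 = dg 20736 x ∧ y 2 = dg 1728 x) ∨
      (y 0 = dg 248832 x ∧ y 2 = dg 20736 x ∧ y 1 = dg 1728 x) ∨
      (y 2 = dg 248832 x ∧ y 1 = dg 20736 x ∧ y 0 = dg 1728 x) ∨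
      (y 1 = dg 248832 x ∧ y 2 = dg 20736 x ∧ y 0 = dg 1728 x) ∨
      (y 2 = dg 248832 x ∧ y 0 = dg 20736 x ∧ y 1 = dg 1728 x)) ∧
      y 3 = dg 144 x ∧ dg 12 x ≤ y 4 ∧ y 4 ≤ dg 1 x := by
  obtain ⟨h34, h0, h1, h2, h3, h4, h5⟩ := p6_vals
  obtain ⟨j, hj⟩ := h
  have hj' : (y (p6 j 0) = dg 248832 x ∧ y (p6 j 1) = dg 20736 x ∧
      y (p6 j 2) = dg 1728 x) ∧ (y 3 = dg 144 x ∧ dg 12 x ≤ y 4 ∧ y 4 ≤ dg 1 x) := by
    simp only [R, Function.comp_apply, (h34 j).1, (h34 j).2] at hj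
    tauto
  refine ⟨?_, hj'.2⟩
  have hj2 := hj'.1
  clear hj' hj
  fin_cases j
  · left; simpa [h0] using hj2
  · right; left; simpa [h1] using hj2
  · right; right; left; simpa [h2] using hj2
  · right; right; right; left; simpa [h3] using hj2
  · right; right; right; right; left; simpa [h4] using hj2
  · right; right; right; right; right; simpa [h5] using hj2

theorem O_unique (q : Fin 12) (x x' : ℕ) (hx : x ∈ rows q) (hx' : x' ∈ rows q) (y : Fin 5 → ℕ)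
    (h : O x y) (h' : O x' y) : x = x' := by
  obtain ⟨hs, hp⟩ := checkS_spec _ _ (checkS_rows q)
  obtain ⟨-, a2, a3, a4, -⟩ := hs x hx
  obtain ⟨-, b2, b3, b4, -⟩ := hs x' hx'
  have hO := O_iff x y h
  have hO' := O_iff x' y h'
  have key : dg 248832 x = dg 248832 x' ∧ dg 20736 x = dg 20736 x' ∧ dg 1728 x = dg 1728 x' ∧
      dg 144 x = dg 144 x' := by
    obtain ⟨c1, c2, -, -⟩ := hO
    obtain ⟨d1, d2, -, -⟩ := hO'
    generalize dg 248832 x = t1 at *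
    generalize dg 20736 x = t2 at *
    generalize dg 1728 x = t3 at *
    generalize dg 144 x = t4 at *
    generalize dg 248832 x' = s1 at *
    generalize dg 20736 x' = s2 at *
    generalize dg 1728 x' = s3 at *
    generalize dg 144 x' = s4 at *
    rcases c1 with c1 | c1 | c1 | c1 | c1 | c1 <;> rcases d1 with d1 | d1 | d1 | d1 | d1 | d1 <;>
      omega
  apply pairwise_inj _ hp x hx x' hx'
  obtain ⟨k1, k2, k3, k4⟩ := key
  have e : ∀ K z, dg K z = z / K % 12 := fun K z => by unfold dg; rfl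
  rw [e, e] at k1 k2 k3 k4
  omega

theorem pair_dist (q : Fin 12) (x x' : ℕ) (hx : x ∈ rows q) (hx' : x' ∈ rows q)
    (y y' : Fin 5 → ℕ) (h : O x y) (h' : O x' y') : ∑ i, D2 (y i) (y' i) < 10000 := by
  obtain ⟨hs, -⟩ := checkS_spec _ _ (checkS_rows q)
  obtain ⟨-, -, a3, a4, a5⟩ := hs x hx
  obtain ⟨-, -, b3, b4, b5⟩ := hs x' hx'
  obtain ⟨c1, c2, c3, c4⟩ := O_iff x y h
  obtain ⟨d1, d2, d3, d4⟩ := O_iff x' y' h'
  obtain ⟨r1, r2, r3, r4, r5⟩ := rearr _ _ _ _ _ _ a3 a4 (dg_lt _ _) b3 b4 (dg_lt _ _)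
  obtain ⟨s1, s2⟩ := checkA_spec _ (checkA_rows q) x' hx' x hx
  rw [Fin.sum_univ_five, c2, d2]
  refine D2_range (y 4) (dg 12 x) (dg 1 x) (y' 4) (dg 12 x') (dg 1 x') c3 c4 (dg_lt _ _) d3 d4
    (dg_lt _ _) _ ?_ ?_
  · rw [D2_comm (dg 12 x') (dg 1 x)]
    rcases c1 with ⟨c1, c1', c1''⟩ | ⟨c1, c1', c1''⟩ | ⟨c1, c1', c1''⟩ | ⟨c1, c1', c1''⟩ |
      ⟨c1, c1', c1''⟩ | ⟨c1, c1', c1''⟩ <;>
    rcases d1 with ⟨d1, d1', d1''⟩ | ⟨d1, d1', d1''⟩ | ⟨d1, d1', d1''⟩ | ⟨d1, d1', d1''⟩ |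
      ⟨d1, d1', d1''⟩ | ⟨d1, d1', d1''⟩ <;>
    rw [c1, c1', c1'', d1, d1', d1''] <;> omega
  · rw [D2_comm (dg 1 x') (dg 12 x)]
    rcases c1 with ⟨c1, c1', c1''⟩ | ⟨c1, c1', c1''⟩ | ⟨c1, c1', c1''⟩ | ⟨c1, c1', c1''⟩ |
      ⟨c1, c1', c1''⟩ | ⟨c1, c1', c1''⟩ <;>
    rcases d1 with ⟨d1, d1', d1''⟩ | ⟨d1, d1', d1''⟩ | ⟨d1, d1', d1''⟩ | ⟨d1, d1', d1''⟩ |
      ⟨d1, d1', d1''⟩ | ⟨d1, d1', d1''⟩ <;>
    rw [c1, c1', c1'', d1, d1', d1''] <;> omega

end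

end Pool.Agent.Helper14.Moser5
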