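import Pool.Agent.Helper14.Moser5.Comp

/-!
# Packed arithmetic

`pk f l a` packs the values `f x` (`x ∈ l`) into one natural number, 240 bits for each value.
-/

namespace Pool.Agent.Helper14.Moser5

/-- packed vector, 240 bits per entry -/
def pk (f : ℕ → ℕ) (l : List ℕ) (a : ℕ) : ℕ :=
  l.foldl (fun acc x => (acc <<< 240) + f x) a

theorem pk_nil (f : ℕ → ℕ) (a : ℕ) : pk f [] a = a := rfl

theorem pk_cons (f : ℕ → ℕ) (x : ℕ) (l : List ℕ) (a : ℕ) :
    pk f (x :: l) a = pk f l ((a <<< 240) + f x) := rfl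

theorem pk_congr (f g : ℕ → ℕ) (l : List ℕ) (a : ℕ) (h : ∀ x ∈ l, f x = g x) :
    pk f l a = pk g l a := by
  induction l generalizing a with
  | nil => rfl
  | cons x l ih =>
    rw [pk_cons, pk_cons, h x (by simp), ih _ fun y hy => h y (by simp [hy])]

theorem add_step (a b f g : ℕ) :
    ((a <<< 240) + f) + ((b <<< 240) + g) = ((a + b) <<< 240) + (f + g) := by
  rw [Nat.shiftLeft_eq, Nat.shiftLeft_eq, Nat.shiftLeft_eq]
  generalize 2 ^ 240 = M
  ring

theorem pk_add (f g : ℕ → ℕ) (l : List ℕ) (a b : ℕ) :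
    pk f l a + pk g l b = pk (fun x => f x + g x) l (a + b) := by
  induction l generalizing a b with
  | nil => rfl
  | cons x l ih =>
    rw [pk_cons, pk_cons, pk_cons, ih, add_step]

theorem land_step (a b f g : ℕ) (hf : f < 2 ^ 240) (hg : g < 2 ^ 240) :
    ((a <<< 240) + f) &&& ((b <<< 240) + g) = ((a &&& b) <<< 240) + (f &&& g) := by
  have hfg : f &&& g < 2 ^ 240 := lt_of_le_of_lt Nat.and_le_left hf
  have e : ∀ u v : ℕ, (u <<< 240) + v = 2 ^ 240 * u + v := fun u v => by
    rw [Nat.shiftLeft_eq, Nat.mul_comm]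
  rw [e, e, e]
  apply Nat.eq_of_testBit_eq
  intro j
  rw [Nat.testBit_and, Nat.testBit_two_pow_mul_add _ hf, Nat.testBit_two_pow_mul_add _ hg,
    Nat.testBit_two_pow_mul_add _ hfg]
  split_ifs
  · rw [Nat.testBit_and]
  · rw [Nat.testBit_and]

theorem pk_land (f g : ℕ → ℕ) (l : List ℕ) (a b : ℕ) (hf : ∀ x ∈ l, f x < 2 ^ 240)
    (hg : ∀ x ∈ l, g x < 2 ^ 240) :
    pk f l a &&& pk g l b = pk (fun x => f x &&& g x) l (a &&& b) := by
  induction l generalizing a b with
  | nil => rfl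
  | cons x l ih =>
    rw [pk_cons, pk_cons, pk_cons, ih _ _ (fun y hy => hf y (by simp [hy]))
      (fun y hy => hg y (by simp [hy])), land_step _ _ _ _ (hf x (by simp)) (hg x (by simp))]

theorem shift_land_step (s a b f g : ℕ) (hs : s ≤ 240) (hf : f < 2 ^ 240) (hg : g < 2 ^ (240 - s)) :
    (((a <<< 240) + f) >>> s) &&& ((b <<< 240) + g) =
      (((a >>> s) &&& b) <<< 240) + ((f >>> s) &&& g) := by
  have hg' : g < 2 ^ 240 := lt_of_lt_of_le hg (Nat.pow_le_pow_right (by norm_num) (by omega))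
  have hfg : (f >>> s) &&& g < 2 ^ 240 := lt_of_le_of_lt Nat.and_le_right hg'
  have e : ∀ u v : ℕ, (u <<< 240) + v = 2 ^ 240 * u + v := fun u v => by
    rw [Nat.shiftLeft_eq, Nat.mul_comm]
  rw [e, e, e]
  apply Nat.eq_of_testBit_eq
  intro j
  rw [Nat.testBit_and, Nat.testBit_shiftRight, Nat.testBit_two_pow_mul_add _ hf,
    Nat.testBit_two_pow_mul_add _ hg', Nat.testBit_two_pow_mul_add _ hfg]
  by_cases hj : j < 240
  · rw [if_pos hj, if_pos hj, Nat.testBit_and, Nat.testBit_shiftRight]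
    by_cases hjs : s + j < 240
    · rw [if_pos hjs]
    · rw [if_neg hjs]
      have : g.testBit j = false := by
        apply Nat.testBit_lt_two_pow
        exact lt_of_lt_of_le hg (Nat.pow_le_pow_right (by norm_num) (by omega))
      rw [this, Bool.and_false, Bool.and_false]
  · rw [if_neg hj, if_neg hj, if_neg (by omega), Nat.testBit_and, Nat.testBit_shiftRight]
    rw [show s + j - 240 = s + (j - 240) by omega]

theorem pk_shift_land (s : ℕ) (hs : s ≤ 240) (f g : ℕ → ℕ) (l : List ℕ) (a b : ℕ)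
    (hf : ∀ x ∈ l, f x < 2 ^ 240) (hg : ∀ x ∈ l, g x < 2 ^ (240 - s)) :
    (pk f l a >>> s) &&& pk g l b = pk (fun x => (f x >>> s) &&& g x) l ((a >>> s) &&& b) := by
  induction l generalizing a b with
  | nil => rfl
  | cons x l ih =>
    rw [pk_cons, pk_cons, pk_cons, ih _ _ (fun y hy => hf y (by simp [hy]))
      (fun y hy => hg y (by simp [hy])), shift_land_step _ _ _ _ _ hs (hf x (by simp))
      (hg x (by simp))]

theorem pk_eq_zero (f : ℕ → ℕ) (l : List ℕ) (a : ℕ) (h : pk f l a = 0) :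
    a = 0 ∧ ∀ x ∈ l, f x = 0 := by
  induction l generalizing a with
  | nil => exact ⟨h, by simp⟩
  | cons x l ih =>
    rw [pk_cons] at h
    obtain ⟨h1, h2⟩ := ih _ h
    have h3 : a <<< 240 = 0 := by omega
    rw [Nat.shiftLeft_eq] at h3
    refine ⟨?_, ?_⟩
    · rcases Nat.mul_eq_zero.1 h3 with h4 | h4
      · exact h4
      · exact absurd h4 (by positivity)
    · intro y hy
      rcases List.mem_cons.1 hy with rfl | hy
      · omega
      · exact h2 y hy

theorem land_bit19 (x : ℕ) (hx : x < 2 ^ 20) (h : x &&& 524288 = 0) : x < 524288 := by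
  by_contra hcon
  have h1 : x.testBit 19 = true := by
    rw [Nat.testBit_eq_decide_div_mod_eq]
    have : x / 2 ^ 19 = 1 := by
      apply Nat.div_eq_of_lt_le <;> norm_num at * <;> omega
    rw [this]
    rfl
  have h2 : (x &&& 524288).testBit 19 = true := by
    rw [Nat.testBit_and, h1]
    rfl
  rw [h] at h2
  simp at h2

theorem land_mask20 (x : ℕ) : x &&& 1048575 = x % 2 ^ 20 := by
  have := Nat.and_two_pow_sub_one_eq_mod x 20
  simpa using this

end Pool.Agent.Helper14.Moser5
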