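import Pool.Agent.Helper14.Moser5.Cover

/-!
# Sums over permutations
-/

namespace Pool.Agent.Helper14.Moser5

open Equiv

/-- sum over all permutations, computed recursively -/
def permSum : (n : ℕ) → ((Fin n → ℕ) → ℕ) → (Fin n → ℕ) → ℕ
  | 0, F, k => F k
  | n + 1, F, k => ∑ i : Fin (n + 1),
      permSum n (fun k' => F (Fin.cons (k i) k')) (fun j => k (swap 0 i j.succ))

theorem permSum_eq (n : ℕ) (F : (Fin n → ℕ) → ℕ) (k : Fin n → ℕ) :
    permSum n F k = ∑ σ : Perm (Fin n), F (k ∘ σ) := by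
  induction n with
  | zero =>
    rw [Fintype.sum_unique]
    show F k = F _
    congr 1
  | succ n ih =>
    show (∑ i : Fin (n + 1),
      permSum n (fun k' => F (Fin.cons (k i) k')) (fun j => k (swap 0 i j.succ))) = _
    rw [← Equiv.sum_comp (Equiv.Perm.decomposeFin (n := n)).symm
      (fun σ : Perm (Fin (n + 1)) => F (k ∘ σ)), Fintype.sum_prod_type]
    refine Finset.sum_congr rfl fun i _ => ?_
    rw [ih]
    refine Finset.sum_congr rfl fun τ _ => ?_
    congr 1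
    funext j
    refine Fin.cases ?_ (fun j => ?_) j
    · simp [Equiv.Perm.decomposeFin_symm_apply_zero]
    · simp [Equiv.Perm.decomposeFin_symm_apply_succ]

/-- index of a vector of classes with prefix `i` -/
def E : (n : ℕ) → ℕ → (Fin n → ℕ) → ℕ
  | 0, i, _ => i
  | n + 1, i, k => E n (i * 6 + k 0) (fun j => k j.succ)

theorem permSum_E (n : ℕ) (H i : ℕ) (k : Fin (n + 1) → ℕ) :
    permSum (n + 1) (fun k => look H (E (n + 1) i k)) k =
      ∑ a : Fin (n + 1), permSum n (fun k' => look H (E n (i * 6 + k a) k'))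
        (fun j => k (swap 0 a j.succ)) := by
  rfl

theorem P1_eq (H i : ℕ) (k : Fin 1 → ℕ) :
    P1 H i (k 0) = permSum 1 (fun k => look H (E 1 i k)) k := by
  rw [permSum_E, Fin.sum_univ_succ, Fin.sum_univ_zero, Nat.add_zero]
  rfl

theorem sw2 : (∀ j : Fin 1, swap (0 : Fin 2) 0 j.succ = j.succ) ∧
    (swap (0 : Fin 2) 1 (Fin.succ 0) = 0) := by decide

theorem P2_eq (H i : ℕ) (k : Fin 2 → ℕ) :
    P2 H i (k 0) (k 1) = permSum 2 (fun k => look H (E 2 i k)) k := by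
  rw [permSum_E, Fin.sum_univ_two, ← P1_eq, ← P1_eq]
  have h1 : swap (0 : Fin 2) 0 (Fin.succ 0) = 1 := by decide
  have h2 : swap (0 : Fin 2) 1 (Fin.succ 0) = 0 := by decide
  rw [h1, h2]
  rfl

theorem P3_eq (H i : ℕ) (k : Fin 3 → ℕ) :
    P3 H i (k 0) (k 1) (k 2) = permSum 3 (fun k => look H (E 3 i k)) k := by
  rw [permSum_E, Fin.sum_univ_three, ← P2_eq, ← P2_eq, ← P2_eq]
  have h1 : swap (0 : Fin 3) 0 (Fin.succ 0) = 1 := by decide
  have h2 : swap (0 : Fin 3) 0 (Fin.succ 1) = 2 := by decide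
  have h3 : swap (0 : Fin 3) 1 (Fin.succ 0) = 0 := by decide
  have h4 : swap (0 : Fin 3) 1 (Fin.succ 1) = 2 := by decide
  have h5 : swap (0 : Fin 3) 2 (Fin.succ 0) = 1 := by decide
  have h6 : swap (0 : Fin 3) 2 (Fin.succ 1) = 0 := by decide
  rw [h1, h2, h3, h4, h5, h6, Nat.add_assoc]
  rfl

theorem P4_eq (H i : ℕ) (k : Fin 4 → ℕ) :
    P4 H i (k 0) (k 1) (k 2) (k 3) = permSum 4 (fun k => look H (E 4 i k)) k := by
  rw [permSum_E, Fin.sum_univ_four, ← P3_eq, ← P3_eq, ← P3_eq, ← P3_eq]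
  have h1 : swap (0 : Fin 4) 0 (Fin.succ 0) = 1 := by decide
  have h2 : swap (0 : Fin 4) 0 (Fin.succ 1) = 2 := by decide
  have h3 : swap (0 : Fin 4) 0 (Fin.succ 2) = 3 := by decide
  have h4 : swap (0 : Fin 4) 1 (Fin.succ 0) = 0 := by decide
  have h5 : swap (0 : Fin 4) 1 (Fin.succ 1) = 2 := by decide
  have h6 : swap (0 : Fin 4) 1 (Fin.succ 2) = 3 := by decide
  have h7 : swap (0 : Fin 4) 2 (Fin.succ 0) = 1 := by decide
  have h8 : swap (0 : Fin 4) 2 (Fin.succ 1) = 0 := by decide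
  have h9 : swap (0 : Fin 4) 2 (Fin.succ 2) = 3 := by decide
  have h10 : swap (0 : Fin 4) 3 (Fin.succ 0) = 1 := by decide
  have h11 : swap (0 : Fin 4) 3 (Fin.succ 1) = 2 := by decide
  have h12 : swap (0 : Fin 4) 3 (Fin.succ 2) = 0 := by decide
  rw [h1, h2, h3, h4, h5, h6, h7, h8, h9, h10, h11, h12, Nat.add_assoc]
  rfl

theorem P5_eq (H : ℕ) (k : Fin 5 → ℕ) :
    P5 H (k 0) (k 1) (k 2) (k 3) (k 4) = permSum 5 (fun k => look H (E 5 0 k)) k := by
  rw [permSum_E, Fin.sum_univ_five, ← P4_eq, ← P4_eq, ← P4_eq, ← P4_eq, ← P4_eq]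
  have h1 : swap (0 : Fin 5) 0 (Fin.succ 0) = 1 := by decide
  have h2 : swap (0 : Fin 5) 0 (Fin.succ 1) = 2 := by decide
  have h3 : swap (0 : Fin 5) 0 (Fin.succ 2) = 3 := by decide
  have h3' : swap (0 : Fin 5) 0 (Fin.succ 3) = 4 := by decide
  have h4 : swap (0 : Fin 5) 1 (Fin.succ 0) = 0 := by decide
  have h5 : swap (0 : Fin 5) 1 (Fin.succ 1) = 2 := by decide
  have h6 : swap (0 : Fin 5) 1 (Fin.succ 2) = 3 := by decide
  have h6' : swap (0 : Fin 5) 1 (Fin.succ 3) = 4 := by decide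
  have h7 : swap (0 : Fin 5) 2 (Fin.succ 0) = 1 := by decide
  have h8 : swap (0 : Fin 5) 2 (Fin.succ 1) = 0 := by decide
  have h9 : swap (0 : Fin 5) 2 (Fin.succ 2) = 3 := by decide
  have h9' : swap (0 : Fin 5) 2 (Fin.succ 3) = 4 := by decide
  have h10 : swap (0 : Fin 5) 3 (Fin.succ 0) = 1 := by decide
  have h11 : swap (0 : Fin 5) 3 (Fin.succ 1) = 2 := by decide
  have h12 : swap (0 : Fin 5) 3 (Fin.succ 2) = 0 := by decide
  have h12' : swap (0 : Fin 5) 3 (Fin.succ 3) = 4 := by decide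
  have h13 : swap (0 : Fin 5) 4 (Fin.succ 0) = 1 := by decide
  have h14 : swap (0 : Fin 5) 4 (Fin.succ 1) = 2 := by decide
  have h15 : swap (0 : Fin 5) 4 (Fin.succ 2) = 3 := by decide
  have h16 : swap (0 : Fin 5) 4 (Fin.succ 3) = 0 := by decide
  rw [h1, h2, h3, h3', h4, h5, h6, h6', h7, h8, h9, h9', h10, h11, h12, h12', h13, h14, h15, h16,
    Nat.zero_mul, Nat.zero_add, Nat.zero_add, Nat.zero_add, Nat.zero_add, Nat.zero_add]
  unfold P5
  simp only [Nat.add_eq]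
  omega

theorem six_all (p : ℕ → Bool) (h : allK p six = true) : ∀ a < 6, p a = true := by
  rw [allK_eq, List.all_eq_true] at h
  intro a ha
  refine h a ?_
  unfold six
  interval_cases a <;> simp

theorem chk5_spec (H : ℕ) (h : chk5 H = true) (k : Fin 5 → ℕ) (hk : ∀ i, k i < 6)
    (hm : Monotone k) : 3840000 ≤ ∑ σ : Perm (Fin 5), look H (E 5 0 (k ∘ σ)) := by
  have e := permSum_eq 5 (fun k => look H (E 5 0 k)) k
  rw [← e, ← P5_eq]
  have m1 : k 0 ≤ k 1 := hm (by decide)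
  have m2 : k 1 ≤ k 2 := hm (by decide)
  have m3 : k 2 ≤ k 3 := hm (by decide)
  have m4 : k 3 ≤ k 4 := hm (by decide)
  unfold chk5 at h
  have h1 := six_all _ (six_all _ h (k 0) (hk 0)) (k 1) (hk 1)
  rw [Nat.ble_eq_true_of_le m1, cond_true] at h1
  have h2 := six_all _ h1 (k 2) (hk 2)
  rw [Nat.ble_eq_true_of_le m2, cond_true] at h2
  have h3 := six_all _ h2 (k 3) (hk 3)
  rw [Nat.ble_eq_true_of_le m3, cond_true] at h3
  have h4 := six_all _ h3 (k 4) (hk 4)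
  rw [Nat.ble_eq_true_of_le m4, cond_true] at h4
  exact Nat.le_of_ble_eq_true h4

/-- the same for all vectors of classes -/
theorem chk5_all (H : ℕ) (h : chk5 H = true) (k : Fin 5 → ℕ) (hk : ∀ i, k i < 6) :
    3840000 ≤ ∑ σ : Perm (Fin 5), look H (E 5 0 (k ∘ σ)) := by
  have h1 := chk5_spec H h (k ∘ Tuple.sort k) (fun i => hk _) (Tuple.monotone_sort k)
  have h2 := Equiv.sum_comp (Equiv.mulLeft (Tuple.sort k))
    (fun σ : Perm (Fin 5) => look H (E 5 0 (k ∘ σ)))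
  rw [← h2]
  exact h1

end Pool.Agent.Helper14.Moser5
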