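import Pool.Agent.Helper14.Moser5.Main

/-!
# `f(5) ≤ 34`
-/

namespace Pool.Agent.Helper14.Moser5

open Equiv

section
attribute [local irreducible] dg histK mult rp idx4

theorem HH_eq : HH = ∑ q : Fin 12, wt q * histK (rows q) 0 := by
  rw [HH, Fin.sum_univ_castSucc, Fin.sum_univ_castSucc, Fin.sum_univ_castSucc,
    Fin.sum_univ_castSucc, Fin.sum_univ_eight]
  rfl

theorem mult_le (x : ℕ) : mult x ≤ 6 := by
  rw [mult_eq]
  split_ifs <;> norm_num

theorem n5_le (lo hi k : ℕ) : n5 lo hi k ≤ 2 := by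
  unfold n5
  split_ifs <;> norm_num

/-- index set of the terms -/
def TS : Finset (Σ _ : Fin 12, ℕ × ℕ) :=
  (Finset.univ : Finset (Fin 12)).sigma fun q => SF q ×ˢ Finset.range 6

noncomputable def tc (i : Σ _ : Fin 12, ℕ × ℕ) : ℕ :=
  wt i.1 * (mult i.2.1 * n5 (dg 12 i.2.1) (dg 1 i.2.1) i.2.2)

noncomputable def te (i : Σ _ : Fin 12, ℕ × ℕ) : ℕ := 6 * idx4 i.2.1 + i.2.2

theorem sum_TS (F : (Σ _ : Fin 12, ℕ × ℕ) → ℕ) :
    ∑ i ∈ TS, F i = ∑ q : Fin 12, ∑ x ∈ SF q, ∑ k ∈ Finset.range 6, F ⟨q, (x, k)⟩ := by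
  unfold TS
  rw [Finset.sum_sigma]
  refine Finset.sum_congr rfl fun q _ => ?_
  rw [Finset.sum_product]

theorem HH_terms : HH = ∑ i ∈ TS, tc i * 2 ^ (32 * te i) := by
  rw [HH_eq, sum_TS]
  refine Finset.sum_congr rfl fun q _ => ?_
  rw [histK_eq _ (rows_nodup q), Finset.mul_sum]
  refine Finset.sum_congr rfl fun x hx => ?_
  have hlo := ((checkS_spec _ _ (checkS_rows q)).1 x ((mem_SF q x).1 hx)).2.2.2.2
  rw [rp_eq x hlo, Finset.mul_sum, Finset.sum_mul, Finset.mul_sum]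
  refine Finset.sum_congr rfl fun k _ => ?_
  show wt q * (mult x * (n5 (dg 12 x) (dg 1 x) k * 2 ^ (32 * k)) * 2 ^ (192 * idx4 x)) =
    wt q * (mult x * n5 (dg 12 x) (dg 1 x) k) * 2 ^ (32 * (6 * idx4 x + k))
  have e : 2 ^ (32 * (6 * idx4 x + k)) = 2 ^ (32 * k) * 2 ^ (192 * idx4 x) := by
    rw [← Nat.pow_add]; congr 1; ring
  rw [e]
  generalize 2 ^ (32 * k) = u
  generalize 2 ^ (192 * idx4 x) = v
  ring

theorem tc_total : ∑ i ∈ TS, tc i < 2 ^ 32 := by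
  rw [sum_TS]
  have h1 : ∀ q : Fin 12, (∑ x ∈ SF q, ∑ k ∈ Finset.range 6, tc ⟨q, (x, k)⟩) ≤
      72 * (wt q * (rows q).length) := by
    intro q
    have h2 : ∀ x ∈ SF q, (∑ k ∈ Finset.range 6, tc ⟨q, (x, k)⟩) ≤ 72 * wt q := by
      intro x _
      have h3 : ∀ k ∈ Finset.range 6, tc ⟨q, (x, k)⟩ ≤ 12 * wt q := by
        intro k _
        show wt q * (mult x * n5 (dg 12 x) (dg 1 x) k) ≤ 12 * wt q
        have := Nat.mul_le_mul (mult_le x) (n5_le (dg 12 x) (dg 1 x) k)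
        calc wt q * (mult x * n5 (dg 12 x) (dg 1 x) k) ≤ wt q * (6 * 2) :=
              Nat.mul_le_mul_left _ this
          _ = 12 * wt q := by ring
      have := Finset.sum_le_card_nsmul _ _ _ h3
      rw [Finset.card_range, smul_eq_mul] at this
      omega
    have h4 := Finset.sum_le_card_nsmul _ _ _ h2
    have h5 : (SF q).card ≤ (rows q).length := List.toFinset_card_le _
    rw [smul_eq_mul] at h4
    calc _ ≤ (SF q).card * (72 * wt q) := h4
      _ ≤ (rows q).length * (72 * wt q) := Nat.mul_le_mul_right _ h5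
      _ = 72 * (wt q * (rows q).length) := by ring
  have h6 : (∑ q : Fin 12, 72 * (wt q * (rows q).length)) < 2 ^ 32 := by decide +kernel
  exact lt_of_le_of_lt (Finset.sum_le_sum fun q _ => h1 q) h6

theorem A_eq (x : ℕ) (k : Fin 5 → ℕ) (hk : ∀ i, k i < 6) (m : ℕ) :
    (∑ j ∈ Finset.range 6, if 6 * idx4 x + j = E 5 0 k then
      m * n5 (dg 12 x) (dg 1 x) j else 0) = m * A x k := by
  have hE : E 5 0 k = 6 * (((k 0 * 6 + k 1) * 6 + k 2) * 6 + k 3) + k 4 := by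
    show ((((0 * 6 + k 0) * 6 + k 1) * 6 + k 2) * 6 + k 3) * 6 + k 4 = _
    ring
  rw [hE, idx4_eq]
  have b0 := cl_lt _ (dg_lt 248832 x)
  have b1 := cl_lt _ (dg_lt 20736 x)
  have b2 := cl_lt _ (dg_lt 1728 x)
  have b3 := cl_lt _ (dg_lt 144 x)
  have c0 := hk 0
  have c1 := hk 1
  have c2 := hk 2
  have c3 := hk 3
  have c4 := hk 4
  unfold A
  generalize cl (dg 248832 x) = t0 at *
  generalize cl (dg 20736 x) = t1 at *
  generalize cl (dg 1728 x) = t2 at *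
  generalize cl (dg 144 x) = t3 at *
  generalize k 0 = k0 at *
  generalize k 1 = k1 at *
  generalize k 2 = k2 at *
  generalize k 3 = k3 at *
  generalize k 4 = k4 at *
  by_cases h : t0 = k0 ∧ t1 = k1 ∧ t2 = k2 ∧ t3 = k3
  · obtain ⟨rfl, rfl, rfl, rfl⟩ := h
    rw [Finset.sum_eq_single k4]
    · simp
    · intro j _ hj
      rw [if_neg (by omega)]
    · intro hk4
      exact absurd (Finset.mem_range.2 c4) hk4
  · rw [Finset.sum_eq_zero]
    · rw [← ind_and, ← ind_and, ← ind_and, if_neg]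
      · simp
      · intro hh
        exact h ⟨hh.1.1.1, hh.1.1.2, hh.1.2, hh.2⟩
    · intro j hj
      rw [Finset.mem_range] at hj
      rw [if_neg]
      intro hh
      apply h
      omega

theorem look_HH (k : Fin 5 → ℕ) (hk : ∀ i, k i < 6) :
    look HH (E 5 0 k) = ∑ q : Fin 12, ∑ x ∈ SF q, wt q * (mult x * A x k) := by
  have h0 : look HH (E 5 0 k) = HH / 2 ^ (32 * E 5 0 k) % 2 ^ 32 := by
    have e : (2 : ℕ) ^ 32 = 4294967296 := by norm_num
    rw [e]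
    show (HH >>> (32 * E 5 0 k)) % 4294967296 = _
    rw [Nat.shiftRight_eq_div_pow]
  rw [h0, HH_terms, digit _ _ _ tc_total, sum_TS]
  refine Finset.sum_congr rfl fun q _ => ?_
  refine Finset.sum_congr rfl fun x _ => ?_
  rw [← Nat.mul_assoc, ← A_eq x k hk]
  refine Finset.sum_congr rfl fun j _ => ?_
  show (if 6 * idx4 x + j = E 5 0 k then wt q * (mult x * n5 (dg 12 x) (dg 1 x) j) else 0) = _
  rw [Nat.mul_assoc]

theorem covered (c : Fin 5 → ℕ) (hc : ∀ i, c i < 12) :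
    3840000 ≤ ∑ q : Fin 12, wt q * ∑ x ∈ SF q, ∑ σ : Perm (Fin 5), ∑ s : Fin 5 → Bool,
      iO x (fun i => fl (s i) (c (σ i))) := by
  have h1 := chk5_all HH (by have := chk5_HH; rwa [force_eq] at this) (fun i => cl (c i))
    (fun i => cl_lt _ (hc i))
  refine le_trans h1 (le_of_eq ?_)
  have h2 : ∀ σ : Perm (Fin 5), look HH (E 5 0 ((fun i => cl (c i)) ∘ σ)) =
      ∑ q : Fin 12, ∑ x ∈ SF q, wt q * (mult x * A x (fun i => cl (c (σ i)))) :=
    fun σ => look_HH _ (fun i => cl_lt _ (hc _))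
  rw [Finset.sum_congr rfl fun σ _ => h2 σ, Finset.sum_comm]
  refine Finset.sum_congr rfl fun q _ => ?_
  rw [Finset.sum_comm, Finset.mul_sum]
  refine Finset.sum_congr rfl fun x hx => ?_
  obtain ⟨-, -, a3, a4, -⟩ := (checkS_spec _ _ (checkS_rows q)).1 x ((mem_SF q x).1 hx)
  rw [NO_eq x c a3 a4, NR_eq x c hc, Finset.mul_sum, Finset.mul_sum]

theorem one_point {N : ℕ} (p : Fin N → Fin 5 → ℝ)
    (hd : ∀ a b, a ≠ b → 1 ≤ ∑ i, (p a i - p b i) ^ 2) (c : Fin N → Fin 5 → ℕ)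
    (hc : ∀ a i, c a i < 12)
    (hc' : ∀ a i, (bpt (c a i) : ℝ) ≤ 100 * p a i ∧ 100 * p a i ≤ bpt (c a i + 1))
    (q : Fin 12) (σ : Perm (Fin 5)) (s : Fin 5 → Bool) :
    ∑ a : Fin N, ∑ x ∈ SF q, iO x (fun i => fl (s i) (c a (σ i))) ≤ 1 := by
  classical
  rw [← Finset.sum_product' (f := fun (a : Fin N) x => iO x (fun i => fl (s i) (c a (σ i))))]
  have e : ∀ z : Fin N × ℕ, iO z.2 (fun i => fl (s i) (c z.1 (σ i))) =
      if O z.2 (fun i => fl (s i) (c z.1 (σ i))) then 1 else 0 := fun z => rfl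
  rw [Finset.sum_congr rfl fun z _ => e z, Finset.sum_boole]
  have : (Finset.filter (fun z : Fin N × ℕ => O z.2 (fun i => fl (s i) (c z.1 (σ i))))
      (Finset.univ ×ˢ SF q)).card ≤ 1 := by
    rw [Finset.card_le_one]
    rintro ⟨a, x⟩ ha ⟨b, x'⟩ hb
    rw [Finset.mem_filter, Finset.mem_product] at ha hb
    obtain ⟨⟨-, ha1⟩, ha2⟩ := ha
    obtain ⟨⟨-, hb1⟩, hb2⟩ := hb
    rw [mem_SF] at ha1 hb1
    dsimp only at ha1 hb1 ha2 hb2
    have hab : a = b := by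
      by_contra hne
      have h1 := pair_dist q x x' ha1 hb1 _ _ ha2 hb2
      have h2 : ∀ i, 10000 * (flR (s i) (p a (σ i)) - flR (s i) (p b (σ i))) ^ 2 ≤
          (D2 (fl (s i) (c a (σ i))) (fl (s i) (c b (σ i))) : ℝ) := by
        intro i
        obtain ⟨u1, u2⟩ := cell_flip (s i) _ _ (hc a (σ i)) (hc' a (σ i)).1 (hc' a (σ i)).2
        obtain ⟨v1, v2⟩ := cell_flip (s i) _ _ (hc b (σ i)) (hc' b (σ i)).1 (hc' b (σ i)).2
        exact cell_dist _ _ _ _ u1 u2 v1 v2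
      have h3 : 10000 * ∑ i, (p a (σ i) - p b (σ i)) ^ 2 ≤
          ((∑ i, D2 (fl (s i) (c a (σ i))) (fl (s i) (c b (σ i))) : ℕ) : ℝ) := by
        rw [Finset.mul_sum, Nat.cast_sum]
        refine Finset.sum_le_sum fun i _ => ?_
        have := h2 i
        rwa [flR_sub] at this
      have h4 : ∑ i, (p a (σ i) - p b (σ i)) ^ 2 = ∑ i, (p a i - p b i) ^ 2 :=
        Equiv.sum_comp σ (fun i => (p a i - p b i) ^ 2)
      have h5 := hd a b hne
      rw [h4] at h3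
      have h6 : ((∑ i, D2 (fl (s i) (c a (σ i))) (fl (s i) (c b (σ i))) : ℕ) : ℝ) < 10000 := by
        exact_mod_cast h1
      linarith
    subst hab
    rw [Prod.mk.injEq]
    exact ⟨rfl, O_unique q x x' ha1 hb1 _ ha2 hb2⟩
  rw [Nat.cast_id]
  exact this

theorem wt_total : ∑ q : Fin 12, wt q = 34972 := by decide +kernel

theorem upper {N : ℕ} (p : Fin N → Fin 5 → ℝ) (h01 : ∀ a i, 0 ≤ p a i ∧ p a i ≤ 1)
    (hd : ∀ a b, a ≠ b → 1 ≤ ∑ i, (p a i - p b i) ^ 2) : N ≤ 34 := by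
  have hex : ∀ a i, ∃ c : ℕ, c < 12 ∧ (bpt c : ℝ) ≤ 100 * p a i ∧ 100 * p a i ≤ bpt (c + 1) :=
    fun a i => exists_cell _ (h01 a i).1 (h01 a i).2
  choose c hc hc' using hex
  have h1 : N * 3840000 ≤ ∑ a : Fin N, ∑ q : Fin 12, wt q * ∑ x ∈ SF q, ∑ σ : Perm (Fin 5),
      ∑ s : Fin 5 → Bool, iO x (fun i => fl (s i) (c a (σ i))) := by
    have := Finset.card_nsmul_le_sum (Finset.univ : Finset (Fin N)) _ 3840000
      (fun a _ => covered (c a) (hc a))
    rwa [Finset.card_univ, Fintype.card_fin, smul_eq_mul] at this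
  have h2 : (∑ a : Fin N, ∑ q : Fin 12, wt q * ∑ x ∈ SF q, ∑ σ : Perm (Fin 5),
      ∑ s : Fin 5 → Bool, iO x (fun i => fl (s i) (c a (σ i)))) =
      ∑ q : Fin 12, wt q * ∑ σ : Perm (Fin 5), ∑ s : Fin 5 → Bool, ∑ a : Fin N, ∑ x ∈ SF q,
        iO x (fun i => fl (s i) (c a (σ i))) := by
    rw [Finset.sum_comm]
    refine Finset.sum_congr rfl fun q _ => ?_
    rw [← Finset.mul_sum]
    refine congrArg (fun z => wt q * z) ?_
    have e1 : ∀ a : Fin N, (∑ x ∈ SF q, ∑ σ : Perm (Fin 5), ∑ s : Fin 5 → Bool,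
        iO x (fun i => fl (s i) (c a (σ i)))) = ∑ σ : Perm (Fin 5), ∑ s : Fin 5 → Bool,
          ∑ x ∈ SF q, iO x (fun i => fl (s i) (c a (σ i))) := by
      intro a
      rw [Finset.sum_comm]
      exact Finset.sum_congr rfl fun σ _ => Finset.sum_comm
    rw [Finset.sum_congr rfl fun a _ => e1 a, Finset.sum_comm]
    exact Finset.sum_congr rfl fun σ _ => Finset.sum_comm
  have h3 : (∑ q : Fin 12, wt q * ∑ σ : Perm (Fin 5), ∑ s : Fin 5 → Bool, ∑ a : Fin N,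
      ∑ x ∈ SF q, iO x (fun i => fl (s i) (c a (σ i)))) ≤ ∑ q : Fin 12, wt q * 3840 := by
    refine Finset.sum_le_sum fun q _ => Nat.mul_le_mul_left _ ?_
    calc (∑ σ : Perm (Fin 5), ∑ s : Fin 5 → Bool, ∑ a : Fin N,
          ∑ x ∈ SF q, iO x (fun i => fl (s i) (c a (σ i))))
        ≤ ∑ _σ : Perm (Fin 5), ∑ _s : Fin 5 → Bool, 1 :=
          Finset.sum_le_sum fun σ _ => Finset.sum_le_sum fun s _ =>
            one_point p hd c hc hc' q σ s
      _ = 3840 := by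
          simp only [Finset.sum_const, Finset.card_univ, smul_eq_mul, mul_one,
            Fintype.card_perm, Fintype.card_fin, Fintype.card_pi, Fintype.card_bool,
            Finset.prod_const]
          rfl
  rw [h2] at h1
  rw [← Finset.sum_mul, wt_total] at h3
  omega

end

end Pool.Agent.Helper14.Moser5
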